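import Pool.Agent.helper50.BS.SpecU

set_option autoImplicit false
set_option linter.unusedVariables false
set_option linter.dupNamespace false

open scoped Classical

noncomputable section

namespace Pool.Agent.helper50.BT

open Pool.Agent.helper81.PL

lemma UC8_big {N n k M : ℕ} (h : Big N n k M) :
    n * n < N ∧ 2 ^ (6 * k + 1) ≤ N ∧ (n + 1) * (k + 1) * (3 * k + 1) ≤ N ∧ M ≤ N := by
  unfold Big at h
  generalize 4 ^ (2 * k) = x at *
  generalize 2 ^ (6 * k + 1) = y at *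
  generalize (n + 1) * (k + 1) * (3 * k + 1) = z at *
  generalize n * n = w at *
  omega

lemma UC8_dl (hUA1 : UA1_stmt) {N M n k : ℕ} {E W : Finset ℕ} {PP : List (Finset ℕ)}
    {Tl : List (Finset ℕ × List (Finset ℕ × List ℕ))} {h : helper81.BS.WF n E}
    {T : BS.TR M n k (3 * k)} (H : Hyp N M n k E W PP Tl h T) {P : Finset ℕ} (hP : P ⊆ helper81.BS.dl n E W) :
    (∀ e ∈ P, e < N) ∧ 2 ^ P.card ≤ N := by
  obtain ⟨hb1, hb2, -, -⟩ := UC8_big H.big
  constructor
  · intro e he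
    have h1 := (hUA1 n E h).2.2.2.2 e ((hUA1 n E h).2.2.2.1 W (hP he))
    exact h1.trans hb1
  · have h1 : P.card ≤ 2 * k := (Finset.card_le_card hP).trans H.dW
    have h2 : 2 ^ P.card ≤ 2 ^ (6 * k + 1) := Nat.pow_le_pow_right (by norm_num) (by omega)
    exact h2.trans hb2

theorem UC8 (hUA1 : UA1_stmt) (hUA2 : UA2_stmt) (hUB1 : UB1_stmt) (hUB3 : UB3_stmt) (hUB4 : UB4_stmt)
    (hUB6 : UB6_stmt) (hUC7 : UC7_stmt) (hTB1 : BS.TB1_stmt) (hTD2 : BS.TD2_stmt) (hTD3 : BS.TD3_stmt) :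
    UC8_stmt := by
  intro N M n k E W PP Tl h T H P hP
  have hx : IsNilpotent T.x := ⟨n + 1, T.hx⟩
  have hy : IsNilpotent T.y := ⟨k + 1, T.hy⟩
  set β : Finset ℕ := helper81.BS.beta n E W PP with hβ
  set g : BS.IG := ig n E h with hg
  have hU : ∀ U : Finset ℕ, IsUnit (∑ A ∈ (g.X0 W).powerset with A.toRight ∩ β ⊆ U, BS.om g W β T.x T.y T.u A) :=
    fun U => hTD2 g T.R W β U T.x T.y T.u hx hy
  set Z : Finset ℕ → T.Rˣ := fun U => (hU U).unit with hZ
  have hZe : ∀ U, (Z U : T.R) = ∑ A ∈ (g.X0 W).powerset with A.toRight ∩ β ⊆ U, BS.om g W β T.x T.y T.u A :=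
    fun U => IsUnit.unit_spec (hU U)
  obtain ⟨nd, hpart, hbeta⟩ := hUA2 n E W h PP H.tight.1.1
  have hdl : g.dl W = helper81.BS.dl n E W := (hUA1 n E h).1 W
  have hsub : g.dl W ⊆ β := by
    have := (hTB1 g PP.toFinset W hpart).1
    rwa [hbeta] at this
  obtain ⟨-, -, hsz, hMN⟩ := UC8_big H.big
  obtain ⟨b1, b2⟩ := UC8_dl hUA1 H hP
  obtain ⟨nodup, hmem⟩ := hUB1 N P b1 b2
  -- the summands
  set r : Finset ℕ → T.R := fun P' => (-1 : T.R) ^ (P \ P').card * (Z (β \ (helper81.BS.dl n E W \ P')) : T.R) with hr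
  have hrep : ∀ P' ∈ psub N P, Rp T (bif eqb ((P \ P').card % 2) 0 then HT N M n k E Tl W PP P'
      else subT M (zeroT n k (3 * k)) (HT N M n k E Tl W PP P')) (r P') := by
    intro P' hP'
    have hsub' : P' ⊆ helper81.BS.dl n E W := ((hmem P').1 hP').trans hP
    have h7 := hUC7 N M n k E W PP Tl h T Z H hZe P' hsub'
    by_cases he : (P \ P').card % 2 = 0
    · have e1 : eqb ((P \ P').card % 2) 0 = true := by simp [eqb, he]
      have e2 : (-1 : T.R) ^ (P \ P').card = 1 := (Nat.even_iff.2 he).neg_one_pow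
      rw [e1, cond_true]
      simp only [hr]
      rw [e2, one_mul]
      exact h7
    · have e1 : eqb ((P \ P').card % 2) 0 = false := by simp [eqb, he]
      have e2 : (-1 : T.R) ^ (P \ P').card = -1 := (Nat.odd_iff.2 (by omega)).neg_one_pow
      rw [e1, cond_false]
      simp only [hr]
      rw [e2]
      have h8 := (hUB4 M n k (3 * k) T _ _ _ _ H.two (hUB3 M n k (3 * k) T H.two).2.2 h7).2
      rwa [show (0 : T.R) - (Z (β \ (helper81.BS.dl n E W \ P')) : T.R) =
        -1 * (Z (β \ (helper81.BS.dl n E W \ P')) : T.R) by ring] at h8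
  have h9 := (hUB6 N M n k (3 * k) T (Finset ℕ) (psub N P) _ r H.two hsz hMN hrep).2
  have h10 : ((psub N P).map r).sum = ∑ P' ∈ P.powerset, r P' := by
    rw [← List.sum_toFinset r nodup]
    refine Finset.sum_congr ?_ fun _ _ => rfl
    ext P'
    rw [List.mem_toFinset, hmem, Finset.mem_powerset]
  rw [h10] at h9
  have h11 := hTD3 g T.R W β P (BS.om g W β T.x T.y T.u) hsub (by rw [hdl]; exact hP)
  have h12 : ∑ P' ∈ P.powerset, r P' =
      ∑ A ∈ (g.X0 W).powerset with A.toRight ∩ g.dl W = P, BS.om g W β T.x T.y T.u A := by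
    rw [← h11]
    refine Finset.sum_congr rfl fun P' _ => ?_
    simp only [hr]
    rw [hZe, hdl]
  rw [h12] at h9
  exact h9

end Pool.Agent.helper50.BT

end
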